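import Pool.Agent.Lib.H87L.Level

/-! # H78U: a sequence of partial algebras on `{0, 1}` which decides Q1 (MP_73a90e_al)

`B N` has all the operations that are forced on the closed families by the rule of level `N`. -/

set_option autoImplicit false

namespace H78U

open Pool.H87G Filter

/-- The Boolean functions of `N` variables which do not depend on all of them (`H87L.Lev N`), as a type. -/
abbrev LevT (N : ℕ) : Type := {H : (Fin N → Bool) → Bool // H ∈ H87L.Lev N}

open Classical in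
/-- The partial operation of `G : {0, 1}^N → {0, 1}`: its arguments are numbered by the `H` in `Lev N`; it is defined
iff for some `a` in `{0, 1}^N` the argument number `H` is `H a`, for every `H`; its value is `G a`. -/
noncomputable def op (N : ℕ) (G : (Fin N → Bool) → Bool) : POp Bool where
  ar := Nat.card (LevT N)
  dom := {v | ∃ a : Fin N → Bool, ∀ H : LevT N, v (Finite.equivFin (LevT N) H) = H.1 a}
  fn := fun v => decide (∃ a : Fin N → Bool,
    (∀ H : LevT N, v (Finite.equivFin (LevT N) H) = H.1 a) ∧ G a = true)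

/-- The partial algebra `B N` (its operations): all `op N G`. -/
noncomputable def B (N : ℕ) : Set (POp Bool) := Set.range (op N)

theorem proj_mem {N : ℕ} (hN : 2 ≤ N) (i : Fin N) : (fun y : Fin N → Bool => y i) ∈ H87L.Lev N := by
  obtain ⟨j, hj⟩ : ∃ j : Fin N, j ≠ i := by
    by_cases h : i = ⟨0, by omega⟩
    · exact ⟨⟨1, by omega⟩, by rw [h]; simp⟩
    · exact ⟨⟨0, by omega⟩, fun h' => h h'.symm⟩
  exact ⟨j, fun y z h => h i hj.symm⟩

theorem fn_eq {N : ℕ} (hN : 2 ≤ N) (G : (Fin N → Bool) → Bool) (w : Fin (Nat.card (LevT N)) → Bool)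
    (a : Fin N → Bool) (h : ∀ H : LevT N, w (Finite.equivFin (LevT N) H) = H.1 a) : (op N G).fn w = G a := by
  classical
  have key : (∃ b : Fin N → Bool, (∀ H : LevT N, w (Finite.equivFin (LevT N) H) = H.1 b) ∧ G b = true) ↔
      G a = true := by
    constructor
    · rintro ⟨b, hb, hG⟩
      have : b = a := by
        funext i
        have h1 := hb ⟨_, proj_mem hN i⟩
        have h2 := h ⟨_, proj_mem hN i⟩
        rw [h1] at h2
        exact h2
      rw [← this]
      exact hG
    · intro hG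
      exact ⟨a, h, hG⟩
  rw [Bool.eq_iff_iff]
  exact decide_eq_true_iff.trans key

/-- The rule of level `N` for closed families. -/
theorem rule {F : Set (POp Bool)} {N : ℕ} (hF : Generates F (H87L.Lev N)) {ι : Type} {S : Set (ι → Bool)}
    (hS : Closed F S) (v : Fin N → ι → Bool)
    (h : ∀ H ∈ H87L.Lev N, (fun t => H (fun i => v i t)) ∈ S) (G : (Fin N → Bool) → Bool) :
    (fun t => G (fun i => v i t)) ∈ S := by
  have h1 := hF {f | (fun z => f ((fun t i => v i t) z)) ∈ S} (closed_pull (fun t i => v i t) hS)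
    (fun H hH => h H hH)
  have h2 : G ∈ {f : (Fin N → Bool) → Bool | (fun z => f ((fun t i => v i t) z)) ∈ S} := by
    rw [h1]
    exact Set.mem_univ _
  exact h2

theorem closed_B {F : Set (POp Bool)} {N : ℕ} (hN : 2 ≤ N) (hF : Generates F (H87L.Lev N)) {ι : Type}
    {S : Set (ι → Bool)} (hS : Closed F S) : Closed (B N) S := by
  rintro _ ⟨G, rfl⟩ s hs hdom
  choose a ha using hdom
  have h1 := rule hF hS (fun i t => a t i) (fun H hH => by
    have h2 : (fun t => H (fun i => a t i)) = s (Finite.equivFin (LevT N) ⟨H, hH⟩) := by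
      funext t
      exact (ha t ⟨H, hH⟩).symm
    rw [h2]
    exact hs _) G
  have h3 : (fun t => (op N G).fn (fun i => s i t)) = fun t => G (fun i => a t i) := by
    funext t
    exact fn_eq hN G _ (a t) (ha t)
  rw [h3]
  exact h1

theorem d_le_B {F : Set (POp Bool)} {N : ℕ} (hN : 2 ≤ N) (hF : Generates F (H87L.Lev N)) (n : ℕ) :
    d F n ≤ d (B N) n := by
  have hne : {m | ∃ X : Finset (Fin n → Bool), X.card = m ∧ Generates (B N) (X : Set (Fin n → Bool))}.Nonempty :=
    ⟨_, Finset.univ, rfl, fun S _ hX => Set.eq_univ_of_univ_subset (by simpa using hX)⟩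
  obtain ⟨X, hX, hg⟩ := Nat.sInf_mem hne
  exact Nat.sInf_le ⟨X, hX, fun S hS hXS => hg S (closed_B hN hF hS) hXS⟩

theorem gen_B {N : ℕ} (hN : 2 ≤ N) : Generates (B N) (H87L.Lev N) := by
  intro S hS hX
  apply Set.eq_univ_of_forall
  intro G
  have h1 := hS (op N G) ⟨G, rfl⟩ (fun k => ((Finite.equivFin (LevT N)).symm k).1)
    (fun k => hX ((Finite.equivFin (LevT N)).symm k).2) (fun t => ⟨t, fun H => by
      show ((Finite.equivFin (LevT N)).symm (Finite.equivFin (LevT N) H)).1 t = H.1 t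
      rw [Equiv.symm_apply_apply]⟩)
  have h2 : (fun t => (op N G).fn (fun k => ((Finite.equivFin (LevT N)).symm k).1 t)) = G := by
    funext t
    exact fn_eq hN G _ t (fun H => by rw [Equiv.symm_apply_apply])
  rw [h2] at h1
  exact h1

/-- The rule `LRule` of `H87G` on closed families. -/
theorem lrule {F : Set (POp Bool)} {N : ℕ} (hF : Generates F (H87L.Lev N)) {X : Type} {S : Set (X → Bool)}
    (hS : Closed F S) : LRule N S :=
  fun v h G => rule hF hS v (fun H hH => h H hH) G

theorem level_succ {F : Set (POp Bool)} {N : ℕ} (hN : 1 ≤ N) (hF : Generates F (H87L.Lev N)) :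
    Generates F (H87L.Lev (N + 1)) := by
  intro S hS hX
  apply Set.eq_univ_of_forall
  intro G
  refine C1 hN S (lrule hF hS) {f | ∃ j : Fin (N + 1), f = fun y => y j} ⟨_, 0, rfl⟩ ?_ (N + 1) (fun j y => y j)
    (fun j => ⟨j, rfl⟩) G
  intro v hv G' _
  choose c hc using hv
  obtain ⟨c0, hc0⟩ : ∃ c0, ∀ l, c l ≠ c0 := by
    by_contra hcon
    push Not at hcon
    have h1 : Function.Surjective c := hcon
    have h2 := Fintype.card_le_of_surjective c h1
    simp at h2
  apply hX
  refine ⟨c0, fun y z h => ?_⟩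
  have h1 : (fun l => v l y) = fun l => v l z := by
    funext l
    rw [hc l]
    exact h _ (hc0 l)
  show G' (fun l => v l y) = G' (fun l => v l z)
  rw [h1]

theorem level_mono {F : Set (POp Bool)} {N M : ℕ} (hN : 1 ≤ N) (h : N ≤ M) (hF : Generates F (H87L.Lev N)) :
    Generates F (H87L.Lev M) := by
  induction M, h using Nat.le_induction with
  | base => exact hF
  | succ M hM ih => exact level_succ (hN.trans hM) ih

theorem B_mono {N M : ℕ} (hN : 2 ≤ N) (h : N ≤ M) (n : ℕ) : d (B N) n ≤ d (B M) n :=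
  d_le_B (hN.trans h) (level_mono (by omega) h (gen_B hN)) n

/-- The bound by the functions of `N - 1` bits. -/
theorem level_bound {F : Set (POp Bool)} {M : ℕ} (hF : Generates F (H87L.Lev (M + 1))) (n : ℕ) (hn : 2 ≤ n) :
    d F n ≤ (Nat.clog 2 n) ^ M * 2 ^ (2 ^ M) := by
  classical
  have hD : 1 ≤ Nat.clog 2 n := Nat.clog_pos (by norm_num) hn
  have hle : n ≤ 2 ^ Nat.clog 2 n := Nat.le_pow_clog (by norm_num) n
  generalize Nat.clog 2 n = D at hD hle
  obtain ⟨code⟩ : Nonempty (Fin n ↪ (Fin D → Bool)) :=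
    Function.Embedding.nonempty_of_card_le (by simpa using hle)
  obtain ⟨X, hXdef⟩ : ∃ X : Finset (Fin n → Bool), X = (Finset.univ : Finset ((Fin M → Fin D) ×
      ((Fin M → Bool) → Bool))).image (fun p t => p.2 (fun l => code t (p.1 l))) := ⟨_, rfl⟩
  have hcard : X.card ≤ D ^ M * 2 ^ (2 ^ M) := by
    rw [hXdef]
    refine Finset.card_image_le.trans ?_
    simp [Finset.card_univ, Fintype.card_prod]
  have hgen : Generates F (X : Set (Fin n → Bool)) := by
    intro S hS hX
    apply Set.eq_univ_of_forall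
    intro f
    obtain ⟨K, hK⟩ : ∃ K : Set ((Fin D → Bool) → Bool), K = {g | (fun t => g (code t)) ∈ S} := ⟨_, rfl⟩
    have hKc : Closed F K := by
      rw [hK]
      exact closed_pull (fun t => code t) hS
    have hmem : ∀ (s : Fin M → Fin D) (G : (Fin M → Bool) → Bool), (fun y : Fin D → Bool => G (fun l => y (s l))) ∈ K := by
      intro s G
      rw [hK]
      apply hX
      rw [hXdef]
      simp only [Finset.coe_image, Finset.coe_univ, Set.image_univ]
      exact ⟨(s, G), rfl⟩
    have hall : ∀ G : (Fin D → Bool) → Bool, G ∈ K := by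
      intro G
      refine C1 (Nat.succ_le_succ (Nat.zero_le M)) K (lrule hF hKc) {g | ∃ j : Fin D, g = fun y => y j}
        ⟨_, ⟨0, hD⟩, rfl⟩ ?_ D (fun j y => y j) (fun j => ⟨j, rfl⟩) G
      rintro v hv G' ⟨j, hj⟩
      choose s hs using hv
      have h1 : (fun z => G' (fun l => v l z)) =
          fun z : Fin D → Bool => (fun y : Fin M → Bool => G' (j.insertNth false y)) (fun l => z (s (j.succAbove l))) := by
        funext z
        apply hj
        intro i hi
        obtain ⟨l, rfl⟩ := Fin.exists_succAbove_eq hi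
        rw [Fin.insertNth_apply_succAbove, hs]
      rw [h1]
      exact hmem _ (fun y : Fin M → Bool => G' (j.insertNth false y))
    have h1 := hall (Function.extend code f (fun _ => false))
    rw [hK] at h1
    have h2 : (fun t => Function.extend code f (fun _ => false) (code t)) = f := by
      funext t
      rw [code.injective.extend_apply]
    have h3 : (fun t => Function.extend code f (fun _ => false) (code t)) ∈ S := h1
    rw [h2] at h3
    exact h3
  exact (Nat.sInf_le ⟨X, rfl, hgen⟩ : d F n ≤ X.card).trans hcard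

/-- `d F n` is in `Ω (n)`. -/
def Linear {A : Type} (F : Set (POp A)) : Prop := ∃ c : ℝ, 0 < c ∧ ∀ᶠ n : ℕ in atTop, c * n ≤ d F n

/-- `d F n` is in `O (log n)`. -/
def Logarithmic {A : Type} (F : Set (POp A)) : Prop := ∃ C : ℝ, ∀ᶠ n : ℕ in atTop, (d F n : ℝ) ≤ C * Real.log n

/-- The question Q1: is there a partial algebra with two elements whose growth is neither in `Ω (n)` nor in
`O (log n)`? -/
def Question : Prop := ∃ (A : Type) (F : Set (POp A)), Nat.card A = 2 ∧ ¬ Linear F ∧ ¬ Logarithmic F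

theorem not_linear {F : Set (POp Bool)} {M : ℕ} (hF : Generates F (H87L.Lev (M + 1))) : ¬ Linear F := by
  rintro ⟨c, hc, h⟩
  obtain ⟨K, hK⟩ : ∃ K : ℝ, K = (2 / Real.log 2) ^ M * 2 ^ (2 ^ M) := ⟨_, rfl⟩
  have hl2 : 0 < Real.log 2 := Real.log_pos (by norm_num)
  have hK0 : 0 < K := by
    rw [hK]
    positivity
  have h1 : ∀ᶠ x : ℝ in atTop, ‖Real.log x ^ M‖ ≤ (c / (2 * K)) * ‖x‖ :=
    (Real.isLittleO_pow_log_id_atTop (n := M)).bound (by positivity)
  have h2 : ∀ᶠ n : ℕ in atTop, ‖Real.log (n : ℝ) ^ M‖ ≤ (c / (2 * K)) * ‖(n : ℝ)‖ :=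
    tendsto_natCast_atTop_atTop.eventually h1
  obtain ⟨n, h3, h4, h5⟩ := (h.and (h2.and (eventually_ge_atTop 2))).exists
  have hn0 : (0 : ℝ) < n := by
    have : (2 : ℝ) ≤ n := by exact_mod_cast h5
    linarith
  have hlog : 0 ≤ Real.log (n : ℝ) := Real.log_natCast_nonneg n
  rw [Real.norm_of_nonneg (by positivity), Real.norm_of_nonneg hn0.le] at h4
  have h6 : (d F n : ℝ) ≤ K * Real.log n ^ M := by
    have h7 : (d F n : ℝ) ≤ ((Nat.clog 2 n) ^ M * 2 ^ (2 ^ M) : ℕ) := by exact_mod_cast level_bound hF n h5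
    have h8 : (Nat.clog 2 n : ℝ) ≤ 2 / Real.log 2 * Real.log n := by
      have h9 : (Nat.clog 2 n : ℝ) ≤ 2 * (Nat.log 2 n : ℝ) := by exact_mod_cast H3 n h5
      have h10 : ((Nat.log 2 n : ℕ) : ℝ) ≤ Real.logb 2 n := Real.natLog_le_logb n 2
      calc (Nat.clog 2 n : ℝ) ≤ 2 * Real.logb 2 n := by linarith
        _ = 2 / Real.log 2 * Real.log n := by
          rw [Real.logb]
          ring
    calc (d F n : ℝ) ≤ ((Nat.clog 2 n) ^ M * 2 ^ (2 ^ M) : ℕ) := h7
      _ = (Nat.clog 2 n : ℝ) ^ M * 2 ^ (2 ^ M) := by push_cast; ring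
      _ ≤ (2 / Real.log 2 * Real.log n) ^ M * 2 ^ (2 ^ M) := by gcongr
      _ = K * Real.log n ^ M := by
        rw [hK, mul_pow]
        ring
  have h11 : K * Real.log n ^ M ≤ K * (c / (2 * K) * n) := mul_le_mul_of_nonneg_left h4 hK0.le
  have h12 : K * (c / (2 * K) * n) = c / 2 * n := by
    field_simp
  have h13 : c * n ≤ c / 2 * n := by linarith
  have h14 : 0 < c * n := mul_pos hc hn0
  linarith

theorem exists_B_bool {F : Set (POp Bool)} {n : ℕ} (hn : 3 ≤ n) (hd : 2 * d F n < n) :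
    ∃ N, 2 ≤ N ∧ ∀ m, d F m ≤ d (B N) m := by
  obtain ⟨N, hN, hg⟩ := H87L.exists_level F hn hd
  exact ⟨N + 1, by omega, d_le_B (by omega) (level_succ hN hg)⟩

theorem exists_B {A : Type} (hA : Nat.card A = 2) {F : Set (POp A)} {n : ℕ} (hn : 3 ≤ n) (hd : 2 * d F n < n) :
    ∃ N, 2 ≤ N ∧ ∀ m, d F m ≤ d (B N) m := by
  have : Finite A := Nat.finite_of_card_ne_zero (by omega)
  obtain ⟨e⟩ : Nonempty (A ≃ Bool) := Finite.card_eq.1 (by rw [hA]; simp)
  obtain ⟨F', hF'⟩ := Z1 e F
  rw [hF'] at hd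
  obtain ⟨N, hN, h⟩ := exists_B_bool hn hd
  exact ⟨N, hN, fun m => by rw [hF']; exact h m⟩

theorem small_of_not_linear {A : Type} {F : Set (POp A)} (h : ¬ Linear F) : ∃ n, 3 ≤ n ∧ 2 * d F n < n := by
  by_contra hcon
  push Not at hcon
  refine h ⟨1 / 2, by norm_num, ?_⟩
  filter_upwards [eventually_ge_atTop 3] with n hn
  have h1 := hcon n hn
  have h2 : (n : ℝ) ≤ 2 * d F n := by exact_mod_cast h1
  linarith

theorem not_linear_B {N : ℕ} (hN : 2 ≤ N) : ¬ Linear (B N) := by
  obtain ⟨M, rfl⟩ : ∃ M, N = M + 1 := ⟨N - 1, by omega⟩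
  exact not_linear (gen_B hN)

theorem logarithmic_of_le {A A' : Type} {F : Set (POp A)} {F' : Set (POp A')} (h : ∀ n, d F n ≤ d F' n)
    (h' : Logarithmic F') : Logarithmic F := by
  obtain ⟨C, hC⟩ := h'
  refine ⟨C, hC.mono fun n hn => le_trans ?_ hn⟩
  exact_mod_cast h n

theorem question : Question ↔ ∃ N, ∀ M, N ≤ M → ¬ Logarithmic (B M) := by
  constructor
  · rintro ⟨A, F, hA, h1, h2⟩
    obtain ⟨n, hn, hd⟩ := small_of_not_linear h1
    obtain ⟨N, hN, hB⟩ := exists_B hA hn hd
    exact ⟨N, fun M hM h => h2 (logarithmic_of_le (fun n => (hB n).trans (B_mono hN hM n)) h)⟩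
  · rintro ⟨N, h⟩
    exact ⟨Bool, B (max N 2), by simp, not_linear_B (le_max_right N 2), h _ (le_max_left N 2)⟩

theorem finite_B (N : ℕ) : (B N).Finite := Set.finite_range _

end H78U
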